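import Pool.Agent.W124.KK.Pot

set_option autoImplicit false

namespace Pool.Agent.W124.KK

open Finset Pool.Agent.Helper879.ECD

/-- The colours of all the edges of the product. -/
theorem colouring {V : Type} [Fintype V] [DecidableEq V] (π : Equiv.Perm V) (m : V → V)
    (hm : ∀ v, m (m v) = v) (l₁ l₂ : V → F2) (hnz : ∀ v, l₁ v ≠ 0 ∨ l₂ v ≠ 0)
    (hl1 : ∀ v, l₁ (m v) = l₁ v) (hl2 : ∀ v, l₂ (m v) = l₂ v)
    (h1 : Bal π l₁) (h2 : Bal π l₂) (hπ : ∀ v, π v ≠ v) :
    ∃ c mm s : V → Fin 3 → Fin 5, (∀ v i, mm (m v) i = mm v i) ∧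
      ∀ v i, Function.Injective ![c v i, c (π.symm v) i, mm v i, s v (i + 2), s v (i + 1)] := by
  obtain ⟨k₁, k₂, t, bk, hk1, hk2, hb1, hb2, ht⟩ := exists_labels π m hm l₁ l₂ h1 h2
  have hnz' : ∀ v, ¬ (l₁ v = 0 ∧ l₂ v = 0) := by
    intro v h
    rcases hnz v with h' | h'
    · exact h' h.1
    · exact h' h.2
  have hloc : ∀ v, ∃ s : Fin 3 → Fin 5, ∀ i : Fin 3, Function.Injective
      ![cst (k₁ v) (k₂ v) (bk v) (t v) (l₁ v) (l₂ v) (l₁ (π v)) (l₂ (π v)) i,
        cst (k₁ (π.symm v)) (k₂ (π.symm v)) (bk (π.symm v)) (t (π.symm v)) (l₁ (π.symm v))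
          (l₂ (π.symm v)) (l₁ v) (l₂ v) i, mu (l₁ v) (l₂ v) i, s (i + 2), s (i + 1)] := by
    intro v
    apply local_ok (l₁ v) (l₂ v) (l₁ (π.symm v)) (l₂ (π.symm v)) (l₁ (π v)) (l₂ (π v))
      (k₁ (π.symm v)) (k₂ (π.symm v)) (k₁ v) (k₂ v) (t (π.symm v)) (t v) (bk (π.symm v)) (bk v)
      (hnz' _) (hnz' _) (hnz' _) (hk1 v) (hk2 v)
    · intro hbp
      cases hbn : bk v with
      | false => rfl
      | true =>
        exfalso
        have h3 := hb1 _ hbp
        have h4 := hb1 _ hbn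
        have h5 : rp π (π.symm v) = rp π v := by
          have := rp_apply π (π.symm v)
          rw [Equiv.apply_symm_apply] at this
          exact this.symm
        rw [h5, ← h4] at h3
        apply hπ v
        rw [← Equiv.eq_symm_apply]
        exact h3.symm
    · intro hbp
      have h3 := hb2 _ hbp
      rw [Equiv.apply_symm_apply] at h3
      exact ⟨h3.1, h3.2.1⟩
    · intro hbn
      have h3 := hb2 _ hbn
      exact ⟨h3.2.2, h3.1⟩
    · exact ht v
  choose s hs using hloc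
  refine ⟨fun v => cst (k₁ v) (k₂ v) (bk v) (t v) (l₁ v) (l₂ v) (l₁ (π v)) (l₂ (π v)),
    fun v => mu (l₁ v) (l₂ v), s, ?_, ?_⟩
  · intro v i
    simp only [hl1, hl2]
  · intro v i
    have h3 := hs v i
    simp only [Equiv.apply_symm_apply]
    exact h3

/-- From the colours to the perfect matchings. -/
theorem assemble {V : Type} [DecidableEq V] (G : SimpleGraph V) (π : Equiv.Perm V) (m : V → V)
    (hadj : ∀ v w, G.Adj v w ↔ w = π v ∨ v = π w ∨ w = m v)
    (hπ : ∀ v, π v ≠ v) (hππ : ∀ v, π (π v) ≠ v) (hm : ∀ v, m (m v) = v) (hmv : ∀ v, m v ≠ v)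
    (hmπ : ∀ v, m v ≠ π v) (hπm : ∀ v, π (m v) ≠ v)
    (c mm s : V → Fin 3 → Fin 5) (hmm : ∀ v i, mm (m v) i = mm v i)
    (hinj : ∀ v i, Function.Injective
      ![c v i, c (π.symm v) i, mm v i, s v (i + 2), s v (i + 1)]) :
    ∃ M : Fin 5 → (SimpleGraph.boxProd G (⊤ : SimpleGraph (Fin 3))).Subgraph,
      (∀ k, (M k).IsPerfectMatching) ∧
      ∀ e ∈ (SimpleGraph.boxProd G (⊤ : SimpleGraph (Fin 3))).edgeSet,
        ∃! k, e ∈ (M k).edgeSet := by
  classical
  set H := SimpleGraph.boxProd G (⊤ : SimpleGraph (Fin 3)) with hH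
  let col : V × Fin 3 → V × Fin 3 → Fin 5 := fun x y =>
    if x.1 = y.1 then s x.1 (-(x.2 + y.2)) else if y.1 = π x.1 then c x.1 x.2
    else if x.1 = π y.1 then c y.1 x.2 else mm x.1 x.2
  have hHadj : ∀ x y, H.Adj x y ↔
      (y.1 = π x.1 ∨ x.1 = π y.1 ∨ y.1 = m x.1) ∧ x.2 = y.2 ∨ x.2 ≠ y.2 ∧ x.1 = y.1 := by
    intro x y
    rw [hH, SimpleGraph.boxProd_adj, SimpleGraph.top_adj, hadj]
  have hsymm : ∀ x y, H.Adj x y → col x y = col y x := by
    rintro ⟨u, i⟩ ⟨v, j⟩ h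
    rw [hHadj] at h
    simp only at h
    simp only [col]
    rcases h with ⟨h, rfl⟩ | ⟨_, rfl⟩
    · rcases h with rfl | rfl | rfl
      · rw [if_neg (hπ u).symm, if_pos rfl, if_neg (hπ u), if_neg (hππ u).symm, if_pos rfl]
      · rw [if_neg (hπ v), if_neg (hππ v).symm, if_pos rfl, if_neg (hπ v).symm, if_pos rfl]
      · rw [if_neg (hmv u).symm, if_neg (hmπ u), if_neg (hπm u).symm, if_neg (hmv u),
          if_neg (hπm u).symm, if_neg (hmπ u), hmm]
    · rw [if_pos rfl, if_pos rfl, add_comm]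
  let nb : V × Fin 3 → Fin 5 → V × Fin 3 := fun x =>
    ![(π x.1, x.2), (π.symm x.1, x.2), (m x.1, x.2), (x.1, x.2 + 1), (x.1, x.2 + 2)]
  have hnb : ∀ x y, H.Adj x y ↔ ∃ j, y = nb x j := by
    rintro ⟨u, i⟩ ⟨v, j⟩
    rw [hHadj]
    simp only [nb]
    constructor
    · rintro (⟨h, rfl⟩ | ⟨h, rfl⟩)
      · rcases h with rfl | rfl | rfl
        · exact ⟨0, rfl⟩
        · exact ⟨1, by simp⟩
        · exact ⟨2, rfl⟩
      · have h3 : ∀ i j : Fin 3, i ≠ j → j = i + 1 ∨ j = i + 2 := by decide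
        rcases h3 i j h with rfl | rfl
        · exact ⟨3, rfl⟩
        · exact ⟨4, rfl⟩
    · rintro ⟨k, hk⟩
      have h3 : ∀ i : Fin 3, i ≠ i + 1 ∧ i ≠ i + 2 := by decide
      fin_cases k
      · obtain ⟨rfl, rfl⟩ := Prod.mk.inj hk
        exact Or.inl ⟨Or.inl rfl, rfl⟩
      · obtain ⟨rfl, rfl⟩ := Prod.mk.inj hk
        exact Or.inl ⟨Or.inr (Or.inl (by simp)), rfl⟩
      · obtain ⟨rfl, rfl⟩ := Prod.mk.inj hk
        exact Or.inl ⟨Or.inr (Or.inr rfl), rfl⟩
      · obtain ⟨rfl, rfl⟩ := Prod.mk.inj hk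
        exact Or.inr ⟨(h3 i).1, rfl⟩
      · obtain ⟨rfl, rfl⟩ := Prod.mk.inj hk
        exact Or.inr ⟨(h3 i).2, rfl⟩
  have hcol : ∀ x k, col x (nb x k) =
      ![c x.1 x.2, c (π.symm x.1) x.2, mm x.1 x.2, s x.1 (x.2 + 2), s x.1 (x.2 + 1)] k := by
    rintro ⟨u, i⟩ k
    have hsu : π.symm u ≠ u := by
      intro h
      apply hπ u
      rw [← Equiv.eq_symm_apply]
      exact h.symm
    have hsu2 : π.symm u ≠ π u := by
      intro h
      apply hππ u
      rw [← Equiv.eq_symm_apply]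
      exact h.symm
    have h3 : ∀ i : Fin 3, -(i + (i + 1)) = i + 2 ∧ -(i + (i + 2)) = i + 1 := by decide
    fin_cases k
    · show (if u = π u then _ else if π u = π u then c u i else _) = c u i
      rw [if_neg (hπ u).symm, if_pos rfl]
    · show (if u = π.symm u then _ else if π.symm u = π u then c u i
        else if u = π (π.symm u) then c (π.symm u) i else _) = c (π.symm u) i
      rw [if_neg hsu.symm, if_neg hsu2, if_pos (Equiv.apply_symm_apply π u).symm]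
    · show (if u = m u then _ else if m u = π u then c u i
        else if u = π (m u) then c (m u) i else mm u i) = mm u i
      rw [if_neg (hmv u).symm, if_neg (hmπ u), if_neg (hπm u).symm]
    · show (if u = u then s u (-(i + (i + 1))) else _) = s u (i + 2)
      rw [if_pos rfl, (h3 i).1]
    · show (if u = u then s u (-(i + (i + 2))) else _) = s u (i + 1)
      rw [if_pos rfl, (h3 i).2]
  let M : Fin 5 → H.Subgraph := fun k =>
    { verts := Set.univ
      Adj := fun x y => H.Adj x y ∧ col x y = k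
      adj_sub := fun h => h.1
      edge_vert := fun _ => Set.mem_univ _
      symm := ⟨fun x y h => ⟨h.1.symm, by rw [← hsymm x y h.1]; exact h.2⟩⟩ }
  refine ⟨M, ?_, ?_⟩
  · intro k
    refine ⟨?_, fun v => Set.mem_univ v⟩
    intro x _
    have hbij := Finite.injective_iff_bijective.1 (hinj x.1 x.2)
    obtain ⟨j, hj⟩ := hbij.2 k
    refine ⟨nb x j, ⟨(hnb x _).2 ⟨j, rfl⟩, by rw [hcol]; exact hj⟩, ?_⟩
    rintro y ⟨hxy, hk⟩
    obtain ⟨j', rfl⟩ := (hnb x y).1 hxy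
    rw [hcol] at hk
    rw [hbij.1 (hk.trans hj.symm)]
  · intro e
    induction e with
    | _ x y =>
      intro he
      have he' : H.Adj x y := he
      refine ⟨col x y, ⟨he', rfl⟩, ?_⟩
      intro k hk
      have hk' : H.Adj x y ∧ col x y = k := hk
      exact hk'.2.symm

end Pool.Agent.W124.KK
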