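import Mathlib

set_option autoImplicit false

namespace Pool.Agent.W124.KK

/-- colour of a nonzero label -/
def cl (a b : ZMod 2) : Fin 5 := if a = 0 then 1 else if b = 0 then 0 else 2

/-- a fixed label different from zero and from the given one -/
def ot (a : ZMod 2) : ZMod 2 × ZMod 2 := if a = 0 then (1, 0) else (0, 1)

/-- the label used for the far end of an edge of the 2-factor -/
def br (a1 a2 b1 b2 : ZMod 2) : ZMod 2 × ZMod 2 := if b1 = a1 ∧ b2 = a2 then ot a1 else (b1, b2)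

/-- the colours of the three copies of an edge of the 2-factor -/
def cst (k1 k2 : ZMod 2) (bk : Bool) (t a1 a2 b1 b2 : ZMod 2) : Fin 3 → Fin 5 :=
  if k1 = 0 ∧ k2 = 0 then
    if t = 0 then ![cl (a1 + (br a1 a2 b1 b2).1) (a2 + (br a1 a2 b1 b2).2),
      cl (br a1 a2 b1 b2).1 (br a1 a2 b1 b2).2, cl a1 a2]
    else ![cl (a1 + (br a1 a2 b1 b2).1) (a2 + (br a1 a2 b1 b2).2), cl a1 a2,
      cl (br a1 a2 b1 b2).1 (br a1 a2 b1 b2).2]
  else if bk = true then ![cl k1 k2, cl k1 k2, cl k1 k2]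
  else if t = 0 then ![3, cl k1 k2, 3]
  else ![4, 4, cl k1 k2]

/-- the required change of the bit at a vertex -/
def dd (k1 k2 n1 n2 p1 p2 a1 a2 : ZMod 2) : ZMod 2 :=
  if n1 = 0 ∧ n2 = 0 then 0
  else if k1 = 0 ∧ k2 = 0 then (if p1 = a1 ∧ p2 = a2 then 0 else 1)
  else 1

/-- five pairwise different colours -/
def D5 (a b c d e : Fin 5) : Bool :=
  a ≠ b && a ≠ c && a ≠ d && a ≠ e && b ≠ c && b ≠ d && b ≠ e && c ≠ d && c ≠ e && d ≠ e

lemma D5_inj {a b c d e : Fin 5} (h : D5 a b c d e = true) :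
    Function.Injective ![a, b, c, d, e] := by
  simp only [D5, Bool.and_eq_true, decide_eq_true_eq] at h
  obtain ⟨⟨⟨⟨⟨⟨⟨⟨⟨h1, h2⟩, h3⟩, h4⟩, h5⟩, h6⟩, h7⟩, h8⟩, h9⟩, h10⟩ := h
  intro i j hij
  fin_cases i <;> fin_cases j <;> simp_all

/-- the colours of the matching edges -/
def mu (a1 a2 : ZMod 2) : Fin 3 → Fin 5 := ![cl a1 a2, 3, 4]

/-- search for a colour -/
def ex5 (f : Fin 5 → Bool) : Bool := f 0 || f 1 || f 2 || f 3 || f 4

lemma ex5_spec {f : Fin 5 → Bool} (h : ex5 f = true) : ∃ s, f s = true := by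
  simp only [ex5, Bool.or_eq_true] at h
  rcases h with (((h | h) | h) | h) | h
  · exact ⟨0, h⟩
  · exact ⟨1, h⟩
  · exact ⟨2, h⟩
  · exact ⟨3, h⟩
  · exact ⟨4, h⟩

/-- the vertex condition -/
def cond (N P M : Fin 3 → Fin 5) : Bool :=
  ex5 (fun s1 => ex5 (fun s2 => D5 (N 0) (P 0) (M 0) s2 s1 &&
    ex5 (fun s0 => D5 (N 1) (P 1) (M 1) s0 s2 && D5 (N 2) (P 2) (M 2) s1 s0)))

lemma cond_spec {N P M : Fin 3 → Fin 5} (h : cond N P M = true) :
    ∃ s : Fin 3 → Fin 5, ∀ i : Fin 3,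
      Function.Injective ![N i, P i, M i, s (i + 2), s (i + 1)] := by
  obtain ⟨s1, h⟩ := ex5_spec h
  obtain ⟨s2, h⟩ := ex5_spec h
  rw [Bool.and_eq_true] at h
  obtain ⟨h0, h⟩ := h
  obtain ⟨s0, h⟩ := ex5_spec h
  rw [Bool.and_eq_true] at h
  refine ⟨![s0, s1, s2], fun i => ?_⟩
  fin_cases i
  · exact D5_inj h0
  · exact D5_inj h.1
  · exact D5_inj h.2

/-- conjunction over the two bits -/
def all2 (f : ZMod 2 → Bool) : Bool := f 0 && f 1

lemma all2_spec {f : ZMod 2 → Bool} (h : all2 f = true) (x : ZMod 2) : f x = true := by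
  rw [all2, Bool.and_eq_true] at h
  have hx : x = 0 ∨ x = 1 := by revert x; decide
  rcases hx with rfl | rfl
  · exact h.1
  · exact h.2

/-- the label is zero -/
def isz (a b : ZMod 2) : Bool := decide (a = 0 ∧ b = 0)

lemma isz_false {a b : ZMod 2} (h : ¬ (a = 0 ∧ b = 0)) : isz a b = false := by
  simp [isz, h]

set_option maxRecDepth 100000 in
lemma local_aux : (all2 fun a1 => all2 fun a2 => isz a1 a2 || all2 fun p1 => all2 fun p2 =>
    isz p1 p2 || all2 fun b1 => all2 fun b2 => isz b1 b2 || all2 fun k1 => all2 fun k2 =>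
    all2 fun t =>
      cond (cst (k1 + a1) (k2 + a2) false (t + dd k1 k2 (k1 + a1) (k2 + a2) p1 p2 a1 a2) a1 a2 b1 b2)
        (cst k1 k2 false t p1 p2 a1 a2) (mu a1 a2) &&
      (isz k1 k2 || (isz (k1 + a1) (k2 + a2) ||
        (cond (cst (k1 + a1) (k2 + a2) false
            (t + dd k1 k2 (k1 + a1) (k2 + a2) p1 p2 a1 a2) a1 a2 b1 b2)
          (cst k1 k2 true t p1 p2 a1 a2) (mu a1 a2) &&
        (cond (cst (k1 + a1) (k2 + a2) true 0 a1 a2 b1 b2)
          (cst k1 k2 false t p1 p2 a1 a2) (mu a1 a2) &&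
        cond (cst (k1 + a1) (k2 + a2) true 1 a1 a2 b1 b2)
          (cst k1 k2 false t p1 p2 a1 a2) (mu a1 a2)))))) = true := by
  decide +kernel

/-- The vertex condition holds for the colours given by the labels. -/
theorem local_ok (a1 a2 p1 p2 b1 b2 k1 k2 n1 n2 t tn : ZMod 2) (bp bn : Bool)
    (ha : ¬ (a1 = 0 ∧ a2 = 0)) (hp : ¬ (p1 = 0 ∧ p2 = 0)) (hb : ¬ (b1 = 0 ∧ b2 = 0))
    (hn1 : n1 = k1 + a1) (hn2 : n2 = k2 + a2)
    (hbb : bp = true → bn = false)
    (hbp : bp = true → ¬ (k1 = 0 ∧ k2 = 0) ∧ ¬ (n1 = 0 ∧ n2 = 0))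
    (hbn : bn = true → ¬ (k1 = 0 ∧ k2 = 0) ∧ ¬ (n1 = 0 ∧ n2 = 0))
    (ht : bn = false → tn = t + dd k1 k2 n1 n2 p1 p2 a1 a2) :
    ∃ s : Fin 3 → Fin 5, ∀ i : Fin 3, Function.Injective
      ![cst n1 n2 bn tn a1 a2 b1 b2 i, cst k1 k2 bp t p1 p2 a1 a2 i, mu a1 a2 i,
        s (i + 2), s (i + 1)] := by
  subst hn1 hn2
  apply cond_spec
  have h := all2_spec (all2_spec local_aux a1) a2
  rw [isz_false ha, Bool.false_or] at h
  have h := all2_spec (all2_spec h p1) p2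
  rw [isz_false hp, Bool.false_or] at h
  have h := all2_spec (all2_spec h b1) b2
  rw [isz_false hb, Bool.false_or] at h
  have h := all2_spec (all2_spec (all2_spec h k1) k2) t
  rw [Bool.and_eq_true] at h
  cases bp with
  | true =>
    have hbn' := hbb rfl
    subst hbn'
    obtain ⟨hk, hn⟩ := hbp rfl
    have h2 := h.2
    rw [isz_false hk, Bool.false_or, isz_false hn, Bool.false_or, Bool.and_eq_true] at h2
    rw [ht rfl]
    exact h2.1
  | false =>
    cases bn with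
    | false => rw [ht rfl]; exact h.1
    | true =>
      obtain ⟨hk, hn⟩ := hbn rfl
      have h2 := h.2
      rw [isz_false hk, Bool.false_or, isz_false hn, Bool.false_or, Bool.and_eq_true,
        Bool.and_eq_true] at h2
      have htn : ∀ x : ZMod 2, x = 0 ∨ x = 1 := by decide
      rcases htn tn with rfl | rfl
      · exact h2.2.1
      · exact h2.2.2

end Pool.Agent.W124.KK
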