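import Pool.Agent.W124.KK.Asm
import Pool.Agent.W124.KK.Struct

set_option autoImplicit false

namespace Pool.Agent.W124.KK

open Finset Pool.Agent.Helper879.ECD

/-- Every bridgeless cubic graph times the triangle has a one-factorization. -/
theorem main {V : Type} [Fintype V] [DecidableEq V] (G : SimpleGraph V) [DecidableRel G.Adj]
    (hreg : G.IsRegularOfDegree 3) (hbr : ∀ e ∈ G.edgeSet, ¬ G.IsBridge e) :
    ∃ M : Fin 5 → (SimpleGraph.boxProd G (⊤ : SimpleGraph (Fin 3))).Subgraph,
      (∀ k, (M k).IsPerfectMatching) ∧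
      ∀ e ∈ (SimpleGraph.boxProd G (⊤ : SimpleGraph (Fin 3))).edgeSet,
        ∃! k, e ∈ (M k).edgeSet := by
  classical
  let MG : MGraph V G.edgeSet :=
    { ends := fun e => e.1
      loopless := fun e => G.not_isDiag_of_mem_edgeSet e.2 }
  have hex : ∀ e : G.edgeSet, ∃ p : V × V, e.1 = s(p.1, p.2) := by
    rintro ⟨e, he⟩
    induction e with
    | _ x y => exact ⟨(x, y), rfl⟩
  choose p hp using hex
  have hne : ∀ e, (p e).1 ≠ (p e).2 := by
    intro e h
    apply G.not_isDiag_of_mem_edgeSet e.2
    rw [hp e, h]; exact Sym2.mk_isDiag_iff.2 rfl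
  have hmem : ∀ (e : G.edgeSet) v, v ∈ e.1 ↔ v = (p e).1 ∨ v = (p e).2 := by
    intro e v
    have h := hp e
    constructor
    · intro hv
      rw [h] at hv
      exact Sym2.mem_iff.1 hv
    · intro hv
      rw [h]
      exact Sym2.mem_iff.2 hv
  have hsing : ∀ (e : G.edgeSet) v,
      ¬ ((p e).1 ∈ ({v} : Finset V) ↔ (p e).2 ∈ ({v} : Finset V)) ↔ v ∈ e.1 := by
    intro e v
    rw [hmem, Finset.mem_singleton, Finset.mem_singleton]
    have := hne e
    constructor
    · intro h
      by_contra hcon
      push Not at hcon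
      exact h ⟨fun h' => absurd h'.symm hcon.1, fun h' => absurd h'.symm hcon.2⟩
    · rintro (rfl | rfl) h
      · exact this (h.1 rfl).symm
      · exact this (h.2 rfl)
  obtain ⟨π, m, f, g, l₁, l₂, hmod, hnz, hl1, hl2, hB1, hB2⟩ :=
    exists_struct MG (fun e => (p e).1) (fun e => (p e).2) hp (by
      intro w
      have h3 : (G.neighborFinset w).card = 3 := hreg w
      rw [← h3]
      unfold cn
      symm
      apply Finset.card_bij
        (fun x hx => (⟨s(w, x), (G.mem_neighborFinset w x).1 hx⟩ : G.edgeSet))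
      · intro x hx
        rw [Finset.mem_filter]
        refine ⟨Finset.mem_univ _, ?_⟩
        rw [hsing]
        exact Sym2.mem_mk_left _ _
      · intro x hx y hy h
        have h4 := congrArg Subtype.val h
        exact Sym2.congr_right.1 h4
      · intro e he
        rw [Finset.mem_filter, hsing] at he
        obtain ⟨x, hx⟩ := Sym2.mem_iff_exists.1 he.2
        have hx' : G.Adj w x := by
          have := e.2
          rw [hx] at this
          exact this
        exact ⟨x, (G.mem_neighborFinset w x).2 hx', Subtype.ext hx.symm⟩) (by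
      intro X hX
      unfold cn at hX
      obtain ⟨e0, he0⟩ := Finset.card_eq_one.1 hX
      have hcut : ∀ e, ¬ ((p e).1 ∈ X ↔ (p e).2 ∈ X) ↔ e = e0 := by
        intro e
        have : e ∈ univ.filter (fun e => ¬ ((p e).1 ∈ X ↔ (p e).2 ∈ X)) ↔ e ∈ ({e0} : Finset _) := by
          rw [he0]
        rw [Finset.mem_filter, Finset.mem_singleton] at this
        rw [← this]
        exact ⟨fun h => ⟨Finset.mem_univ _, h⟩, fun h => h.2⟩
      have h1 := hbr e0.1 e0.2
      rw [hp e0, SimpleGraph.isBridge_iff, not_not] at h1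
      have h2 : ∀ x y, (G.deleteEdges {s((p e0).1, (p e0).2)}).Reachable x y →
          (x ∈ X ↔ y ∈ X) := by
        rintro x y ⟨q⟩
        induction q with
        | nil => exact Iff.rfl
        | @cons u v w h q ih =>
          refine Iff.trans ?_ ih
          rw [SimpleGraph.deleteEdges_adj] at h
          have h3 : ¬ ((⟨s(u, v), h.1⟩ : G.edgeSet) = e0) := by
            intro h4
            apply h.2
            rw [Set.mem_singleton_iff, ← hp e0, ← h4]
          rw [← hcut, not_not] at h3
          have h5 := hp ⟨s(u, v), h.1⟩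
          rcases Sym2.eq_iff.1 h5 with ⟨h6, h7⟩ | ⟨h6, h7⟩
          · rw [← h6, ← h7] at h3; exact h3
          · rw [← h6, ← h7] at h3; exact h3.symm
      exact (hcut e0).2 rfl (h2 _ _ h1))
  have hends : ∀ e e' : G.edgeSet, MG.ends e = MG.ends e' → e = e' := fun e e' h => Subtype.ext h
  have hF : ∀ v, G.Adj v (π v) := by
    intro v
    have h := (f v).2
    have h2 : (f v).1 = s(v, π v) := hmod.ef v
    rw [h2] at h
    exact h
  have hG : ∀ v, G.Adj v (m v) := by
    intro v
    have h := (g v).2
    have h2 : (g v).1 = s(v, m v) := hmod.eg v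
    rw [h2] at h
    exact h
  have hadj : ∀ v w, G.Adj v w ↔ w = π v ∨ v = π w ∨ w = m v := by
    intro v w
    constructor
    · intro h
      rcases hmod.cover ⟨s(v, w), h⟩ with ⟨u, hu⟩ | ⟨u, hu⟩
      · have h3 := hmod.ef u
        rw [← hu] at h3
        have h4 : s(v, w) = s(u, π u) := h3
        rcases Sym2.eq_iff.1 h4 with ⟨h6, h7⟩ | ⟨h6, h7⟩
        · left; rw [h6, h7]
        · right; left; rw [h6, h7]
      · have h3 := hmod.eg u
        rw [← hu] at h3
        have h4 : s(v, w) = s(u, m u) := h3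
        rcases Sym2.eq_iff.1 h4 with ⟨h6, h7⟩ | ⟨h6, h7⟩
        · right; right; rw [h6, h7]
        · right; right; rw [h6, h7, hmod.hm]
    · rintro (rfl | rfl | rfl)
      · exact hF v
      · exact (hF w).symm
      · exact hG v
  obtain ⟨c, mm, s, hmm, hinj⟩ := colouring π m hmod.hm l₁ l₂ hnz hl1 hl2 hB1 hB2 hmod.hπ
  refine assemble G π m hadj hmod.hπ ?_ hmod.hm hmod.hne ?_ ?_ c mm s hmm hinj
  · intro v h
    apply hmod.hπ v
    symm
    apply hmod.finj
    apply hends
    rw [hmod.ef, hmod.ef, h, Sym2.eq_swap]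
  · intro v h
    apply hmod.fg v v
    apply hends
    rw [hmod.ef, hmod.eg, h]
  · intro v h
    apply hmod.fg (m v) v
    apply hends
    rw [hmod.ef, hmod.eg, h, Sym2.eq_swap]

end Pool.Agent.W124.KK
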