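import Pool.Agent.Helper879.ECD.Labels
import Pool.Agent.W124.KK.Local

set_option autoImplicit false

namespace Pool.Agent.W124.KK

open Finset Pool.Agent.Helper879.ECD

section Pot

variable {V : Type} [Fintype V] [DecidableEq V]

/-- Balanced values are coboundaries along the cycles. -/
lemma pot (π : Equiv.Perm V) (m : V → V) (hm : ∀ v, m (m v) = v) (Y : V → F2) (hY : Bal π Y) :
    ∃ y : V → F2, ∀ v, y v + y (π.symm v) = Y v := by
  classical
  obtain ⟨y, hy, _⟩ := exists_pot π m hm (fun _ => False) (fun _ h => h) Y hY (by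
    intro Z _ _ h v
    by_contra hv
    exact h v hv)
  exact ⟨y, hy⟩

/-- a representative of the cycle of `v` -/
noncomputable def rp (π : Equiv.Perm V) (v : V) : V :=
  Quotient.out (Quotient.mk (Equiv.Perm.SameCycle.setoid π) v)

omit [Fintype V] [DecidableEq V] in
lemma rp_same (π : Equiv.Perm V) (v : V) : π.SameCycle (rp π v) v :=
  Quotient.exact (Quotient.out_eq (Quotient.mk (Equiv.Perm.SameCycle.setoid π) v))

omit [Fintype V] [DecidableEq V] in
lemma rp_eq {π : Equiv.Perm V} {u v : V} (h : π.SameCycle u v) : rp π u = rp π v := by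
  unfold rp
  congr 1
  exact Quotient.sound h

omit [Fintype V] [DecidableEq V] in
lemma rp_apply (π : Equiv.Perm V) (v : V) : rp π (π v) = rp π v :=
  rp_eq ((Equiv.Perm.sameCycle_apply_left).2 (Equiv.Perm.SameCycle.refl π v))

omit [Fintype V] [DecidableEq V] in
lemma rp_rp (π : Equiv.Perm V) (v : V) : rp π (rp π v) = rp π v := rp_eq (rp_same π v)

/-- Values prescribed outside one vertex of each cycle. -/
lemma pot_brk (π : Equiv.Perm V) (m : V → V) (hm : ∀ v, m (m v) = v) (d : V → F2) :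
    ∃ t : V → F2, ∀ v, v ≠ π (rp π v) → t v + t (π.symm v) = d v := by
  classical
  obtain ⟨t, ht⟩ := pot π m hm
    (fun v => d v + if v = π (rp π v) then ∑ u ∈ univ.filter (fun u => π.SameCycle v u), d u else 0)
    (by
      apply bal_of_sum
      intro r
      rw [Finset.sum_add_distrib]
      have h1 : ∑ v ∈ univ.filter (fun v => π.SameCycle r v),
          (if v = π (rp π v) then ∑ u ∈ univ.filter (fun u => π.SameCycle v u), d u else 0) =
          ∑ u ∈ univ.filter (fun u => π.SameCycle r u), d u := by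
        have hr : π.SameCycle r (π (rp π r)) :=
          (Equiv.Perm.sameCycle_apply_right).2 (rp_same π r).symm
        rw [Finset.sum_eq_single (π (rp π r))]
        · rw [rp_apply, rp_rp, if_pos rfl]
          apply Finset.sum_congr _ (fun _ _ => rfl)
          ext u
          simp only [Finset.mem_filter, Finset.mem_univ, true_and]
          exact ⟨fun h => hr.trans h, fun h => hr.symm.trans h⟩
        · intro v hv hne
          rw [if_neg]
          intro h
          apply hne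
          rw [rp_eq (Finset.mem_filter.1 hv).2]
          exact h
        · intro h
          exact absurd (Finset.mem_filter.2 ⟨Finset.mem_univ _, hr⟩) h
      rw [h1]
      exact f2_add_self _)
  refine ⟨t, fun v hv => ?_⟩
  rw [ht v, if_neg hv, add_zero]

/-- The labels of the edges of the 2-factor. -/
theorem exists_labels (π : Equiv.Perm V) (m : V → V) (hm : ∀ v, m (m v) = v)
    (l₁ l₂ : V → F2) (h1 : Bal π l₁) (h2 : Bal π l₂) :
    ∃ (k₁ k₂ t : V → F2) (bk : V → Bool),
      (∀ v, k₁ v = k₁ (π.symm v) + l₁ v) ∧ (∀ v, k₂ v = k₂ (π.symm v) + l₂ v) ∧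
      (∀ v, bk v = true → v = π (rp π v)) ∧
      (∀ v, bk v = true → ¬ (k₁ v = 0 ∧ k₂ v = 0) ∧ ¬ (k₁ (π v) = 0 ∧ k₂ (π v) = 0) ∧
        ¬ (k₁ (π.symm v) = 0 ∧ k₂ (π.symm v) = 0)) ∧
      (∀ v, bk v = false → t v = t (π.symm v) + dd (k₁ (π.symm v)) (k₂ (π.symm v)) (k₁ v) (k₂ v)
        (l₁ (π.symm v)) (l₂ (π.symm v)) (l₁ v) (l₂ v)) := by
  classical
  obtain ⟨y₁, hy₁⟩ := pot π m hm l₁ h1
  obtain ⟨y₂, hy₂⟩ := pot π m hm l₂ h2
  have hex : ∀ a1 a2 b1 b2 c1 c2 : F2, ∃ s1 s2 : F2, ¬ (a1 + s1 = 0 ∧ a2 + s2 = 0) ∧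
      ¬ (b1 + s1 = 0 ∧ b2 + s2 = 0) ∧ ¬ (c1 + s1 = 0 ∧ c2 + s2 = 0) := by decide +kernel
  have hsh : ∀ v, ∃ s : F2 × F2, ¬ (y₁ v + s.1 = 0 ∧ y₂ v + s.2 = 0) ∧
      ¬ (y₁ (π v) + s.1 = 0 ∧ y₂ (π v) + s.2 = 0) ∧
      ¬ (y₁ (π (π v)) + s.1 = 0 ∧ y₂ (π (π v)) + s.2 = 0) := by
    intro v
    obtain ⟨s1, s2, h⟩ := hex (y₁ v) (y₂ v) (y₁ (π v)) (y₂ (π v)) (y₁ (π (π v))) (y₂ (π (π v)))
    exact ⟨(s1, s2), h⟩
  choose s hs using hsh
  have hrs : ∀ v, rp π (π.symm v) = rp π v := by
    intro v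
    have := rp_apply π (π.symm v)
    rw [Equiv.apply_symm_apply] at this
    exact this.symm
  obtain ⟨t, ht⟩ := pot_brk π m hm (fun v =>
    dd (y₁ (π.symm v) + (s (rp π v)).1) (y₂ (π.symm v) + (s (rp π v)).2)
      (y₁ v + (s (rp π v)).1) (y₂ v + (s (rp π v)).2)
      (l₁ (π.symm v)) (l₂ (π.symm v)) (l₁ v) (l₂ v))
  refine ⟨fun v => y₁ v + (s (rp π v)).1, fun v => y₂ v + (s (rp π v)).2, t,
    fun v => decide (v = π (rp π v)), ?_, ?_, ?_, ?_, ?_⟩
  · intro v
    simp only [hrs]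
    rw [← hy₁ v]
    have : ∀ a b c : F2, a + c = b + c + (a + b) := by decide
    exact this _ _ _
  · intro v
    simp only [hrs]
    rw [← hy₂ v]
    have : ∀ a b c : F2, a + c = b + c + (a + b) := by decide
    exact this _ _ _
  · intro v hv
    exact of_decide_eq_true hv
  · intro v hv
    have hv' : v = π (rp π v) := of_decide_eq_true hv
    simp only [hrs, rp_apply]
    have h3 := hs (rp π v)
    rw [← hv'] at h3
    refine ⟨h3.2.1, h3.2.2, ?_⟩
    have h4 : π.symm v = rp π v := by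
      rw [Equiv.symm_apply_eq]; exact hv'
    rw [h4]
    exact h3.1
  · intro v hv
    have hv' : v ≠ π (rp π v) := of_decide_eq_false hv
    simp only [hrs]
    have h3 := ht v hv'
    rw [← h3]
    have : ∀ a b : F2, a = b + (a + b) := by decide
    exact this _ _

end Pot

end Pool.Agent.W124.KK
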